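import Pool.Agent.H76.GU.Targets
import Pool.Agent.H23.GU.SNT

/-!
# Row ORB of gu_modules (MP_52e316_nt): the orbits of the singular integer matrices
-/

set_option autoImplicit false

open Pool.Agent.H34.GM Pool.Agent.H34.GZ Pool.Agent.H34.GU Pool.Agent.H76.GU

namespace Pool.Agent.H80.GU

private theorem mem_flg {m k : ℕ} (c : Fin m → ℤ) :
    c ∈ flg m k ↔ ∀ j : Fin m, k ≤ (j : ℕ) → c j = 0 := Iff.rfl

/-- extension by zero -/
private def ext0 (m k : ℕ) : (Fin k → ℤ) →ₗ[ℤ] (Fin m → ℤ) where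
  toFun x := fun j => if h : (j : ℕ) < k then x ⟨j, h⟩ else 0
  map_add' x y := by
    funext j
    by_cases h : (j : ℕ) < k <;> simp [h]
  map_smul' a x := by
    funext j
    by_cases h : (j : ℕ) < k <;> simp [h]

private theorem ext0_mem {m k : ℕ} (x : Fin k → ℤ) : ext0 m k x ∈ flg m k := by
  intro j hj
  simp [ext0, not_lt.2 hj]

private theorem ext0_inj {m k : ℕ} (hk : k ≤ m) (x : Fin k → ℤ) (hx : ext0 m k x = 0) : x = 0 := by
  funext i
  have h1 := congrFun hx (Fin.castLE hk i)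
  simpa [ext0] using h1

/-- restriction to the first coordinates -/
private def res0 {m k : ℕ} (hk : k ≤ m) : (Fin m → ℤ) →ₗ[ℤ] (Fin k → ℤ) where
  toFun x := fun j => x (Fin.castLE hk j)
  map_add' x y := rfl
  map_smul' a x := rfl

private theorem res0_inj {m k : ℕ} (hk : k ≤ m) (x : Fin m → ℤ) (hx : x ∈ flg m k)
    (h0 : res0 hk x = 0) : x = 0 := by
  funext j
  by_cases h : (j : ℕ) < k
  · exact congrFun h0 ⟨j, h⟩
  · exact hx j (not_lt.1 h)

private theorem inv_of_unit {m : ℕ} {γ : ZM m} (hγ : IsUnit γ) : γ * γ⁻¹ = 1 ∧ γ⁻¹ * γ = 1 := by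
  have h := (Matrix.isUnit_iff_isUnit_det γ).1 hγ
  exact ⟨Matrix.mul_nonsing_inv γ h, Matrix.nonsing_inv_mul γ h⟩

private theorem vec_inj {m : ℕ} {γ : ZM m} (hγ : IsUnit γ) (c : Fin m → ℤ)
    (h : Matrix.vecMul c γ = 0) : c = 0 := by
  have h1 : Matrix.vecMul (Matrix.vecMul c γ) γ⁻¹ = c := by
    rw [Matrix.vecMul_vecMul, (inv_of_unit hγ).1, Matrix.vecMul_one]
  rw [← h1, h, Matrix.zero_vecMul]

private theorem rank_le {m k k' : ℕ} (hk : k ≤ m) (hk' : k' ≤ m) {γ : ZM m} (hγ : IsUnit γ)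
    (h : ∀ c ∈ flg m k, Matrix.vecMul c γ ∈ flg m k') : k ≤ k' := by
  let f : (Fin k → ℤ) →ₗ[ℤ] (Fin k' → ℤ) :=
    (res0 hk').comp ((Matrix.vecMulLinear γ).comp (ext0 m k))
  have hf : ∀ x, f x = res0 hk' (Matrix.vecMul (ext0 m k x) γ) := fun x => rfl
  have hinj : Function.Injective f := by
    rw [injective_iff_map_eq_zero]
    intro x hx
    rw [hf] at hx
    exact ext0_inj hk x (vec_inj hγ _ (res0_inj hk' _ (h _ (ext0_mem x)) hx))
  have h1 := card_le_of_injective ℤ f hinj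
  simpa using h1

private theorem inP_mem {m k : ℕ} {p : ZM m}
    (hp : ∀ i j : Fin m, (i : ℕ) < k → k ≤ (j : ℕ) → p i j = 0) (c : Fin m → ℤ)
    (hc : c ∈ flg m k) : Matrix.vecMul c p ∈ flg m k := by
  intro j hj
  change ∑ i, c i * p i j = 0
  refine Finset.sum_eq_zero fun i _ => ?_
  by_cases h : (i : ℕ) < k
  · rw [hp i j h hj, mul_zero]
  · rw [hc i (not_lt.1 h), zero_mul]

private theorem inP_inv {m k : ℕ} {p : ZM m} (hu : IsUnit p)
    (hp : ∀ i j : Fin m, (i : ℕ) < k → k ≤ (j : ℕ) → p i j = 0) :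
    ∀ i j : Fin m, (i : ℕ) < k → k ≤ (j : ℕ) → p⁻¹ i j = 0 := by
  let b : Fin m → ℕ := fun i => if (i : ℕ) < k then 1 else 0
  have hb : p.BlockTriangular b := by
    intro i j hij
    by_cases hi : (i : ℕ) < k
    · by_cases hj : (j : ℕ) < k
      · simp [b, hi, hj] at hij
      · exact hp i j hi (not_lt.1 hj)
    · simp [b, hi] at hij
  letI : Invertible p := hu.invertible
  have h1 := Matrix.blockTriangular_inv_of_blockTriangular hb
  intro i j hi hj
  refine h1 ?_
  simp [b, hi, not_lt.2 hj]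

theorem pf_ORB (hSNA : Pool.Agent.H34.GU.T_SNA) : T_ORB := by
  intro m
  refine ⟨?_, ?_, ?_, ?_⟩
  · intro α h0 h1
    obtain ⟨k, hk, hkm, γ, hγ, h⟩ := hSNA m α h0 h1
    refine ⟨k, hk, hkm, γ, hγ, fun c => ?_⟩
    have h2 : c ∈ KL (γ * α) ↔ c ∈ VK m k := by rw [h]
    exact h2
  · intro k α hα
    have hrow : ∀ i j : Fin m, (i : ℕ) < k → α i j = 0 := by
      intro i j hi
      have h1 : (Pi.single i 1 : Fin m → ℤ) ∈ flg m k := by
        intro l hl
        have hne : l ≠ i := by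
          rintro rfl
          omega
        simp [hne]
      have h2 := congrFun ((hα _).2 h1) j
      rw [Matrix.single_one_vecMul] at h2
      exact h2
    refine ⟨hrow, fun n hn => ?_⟩
    ext i j
    have e1 : (n * α) i j = ∑ l, n i l * α l j := rfl
    have e2 : α i j = ∑ l, (1 : ZM m) i l * α l j := by
      have : ((1 : ZM m) * α) i j = ∑ l, (1 : ZM m) i l * α l j := rfl
      rw [← this, one_mul]
    rw [e1, e2]
    refine Finset.sum_congr rfl fun l _ => ?_
    by_cases hl : (l : ℕ) < k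
    · rw [hrow l j hl, mul_zero, mul_zero]
    · rw [hn i l (fun h => hl h.1)]
  · intro k k' α hk hk' γ hγ h1 h2
    have key : ∀ c : Fin m → ℤ, c ∈ flg m k' ↔ Matrix.vecMul c γ ∈ flg m k := by
      intro c
      rw [← h2 c, ← h1, Matrix.vecMul_vecMul]
    refine le_antisymm (rank_le hk' hk hγ fun c hc => (key c).1 hc) ?_
    have hu : IsUnit γ⁻¹ := by
      have h := (Matrix.isUnit_iff_isUnit_det γ).1 hγ
      rw [Matrix.isUnit_iff_isUnit_det, Matrix.det_nonsing_inv]
      exact h.ringInverse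
    refine rank_le hk hk' hu fun c hc => (key _).2 ?_
    rw [Matrix.vecMul_vecMul, (inv_of_unit hγ).2, Matrix.vecMul_one]
    exact hc
  · intro k α hk hα γ hγ
    have key : Ker k (γ * α) ↔ ∀ c : Fin m → ℤ, Matrix.vecMul c γ ∈ flg m k ↔ c ∈ flg m k := by
      constructor
      · intro h c
        rw [← h c, ← hα, Matrix.vecMul_vecMul]
      · intro h c
        rw [← h c, ← hα, Matrix.vecMul_vecMul]
    rw [key]
    constructor
    · intro h
      refine ⟨hγ, fun i j hi hj => ?_⟩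
      have h1 : (Pi.single i 1 : Fin m → ℤ) ∈ flg m k := by
        intro l hl
        have hne : l ≠ i := by
          rintro rfl
          omega
        simp [hne]
      have h2 := (h _).2 h1 j hj
      rw [Matrix.single_one_vecMul] at h2
      exact h2
    · intro h c
      constructor
      · intro hc
        have h1 := inP_mem (inP_inv hγ h.2) _ hc
        rwa [Matrix.vecMul_vecMul, (inv_of_unit hγ).1, Matrix.vecMul_one] at h1
      · exact inP_mem h.2 c

end Pool.Agent.H80.GU
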